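import Pool.Agent.Q108.SCT.Host

set_option autoImplicit false

/-!
Every labelling has at least three stars.
-/

namespace Q108.SCT

/-- the type of a triple of edges -/
def tyX (x : Fin 111 → Fin 4 → Bool) (b : Fin 3 → Fin 111) : Fin 4 :=
  tyB (Y (x (b 0))) (Y (x (b 1))) (Y (x (b 2)))

/-- 1 if the vertex is a star -/
def st (x : Fin 111 → Fin 4 → Bool) (v : ℕ) : ℕ :=
  if h : v < 74 then (if tyX x (ei ⟨v, h⟩) = 3 then 1 else 0) else 0

/-- A lower bound for the number of stars in a set of consecutive vertices. -/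
structure Blk (x : Fin 111 → Fin 4 → Bool) (lo hi : ℕ) (b : Fin 3 → Fin 111) (D : Fin 4 → ℕ) :
    Prop where
  par : ∀ i, xor3 (x (b 0) i) (x (b 1) i) (x (b 2) i) = true
  low : D (tyX x b) ≤ ∑ v ∈ Finset.Ico lo hi, st x v

/-- valid labellings -/
structure Valid (x : Fin 111 → Fin 4 → Bool) : Prop where
  par : ∀ v i, xor3 (x (ei v 0) i) (x (ei v 1) i) (x (ei v 2) i) = true
  wt : ∀ e, w (x e) = 1 ∨ w (x e) = 2

variable {x : Fin 111 → Fin 4 → Bool}

def D1 : Fin 4 → ℕ := ![0, 0, 0, 1]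

lemma Valid.vert (hx : Valid x) (v : ℕ) (hv : v < 74) (b : Fin 3 → Fin 111)
    (hb : ∀ k, ei ⟨v, hv⟩ k = b k) : Blk x v (v + 1) b D1 := by
  have hb' : b = ei ⟨v, hv⟩ := (funext hb).symm
  subst hb'
  refine ⟨hx.par ⟨v, hv⟩, ?_⟩
  rw [Nat.Ico_succ_singleton, Finset.sum_singleton]
  unfold st
  rw [dif_pos hv]
  have : ∀ t : Fin 4, D1 t ≤ if t = 3 then 1 else 0 := by decide
  exact this _

lemma par_aux0 : (allB fun y0 => allB fun y1 => allB fun y6 => impB (xor3 y0 y1 y6) <|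
    allB fun y2 => allB fun y7 => impB (xor3 y1 y2 y7) <|
    allB fun y3 => allB fun y8 => impB (xor3 y2 y3 y8) <|
    allB fun y4 => allB fun y9 => impB (xor3 y3 y4 y9) <|
    allB fun y5 => allB fun y10 => allB fun y13 => impB (xor3 y5 y10 y13) <|
    allB fun y11 => impB (xor3 y8 y11 y13) <|
    allB fun y14 => impB (xor3 y6 y11 y14) <|
    allB fun y12 => impB (xor3 y7 y10 y12) <| impB (xor3 y9 y12 y14) <|
    xor3 y0 y4 y5) = true := by
  decide +kernel

lemma par_aux (y : Fin 15 → Bool)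
    (h : ∀ i : Fin 9, xor3 (y (inc i.succ 0)) (y (inc i.succ 1)) (y (inc i.succ 2)) = true) :
    xor3 (y (inc 0 0)) (y (inc 0 1)) (y (inc 0 2)) = true := by
  have g := par_aux0
  simp only [allB_iff, impB_iff] at g
  exact g (y 0) (y 1) (y 6) (h 0) (y 2) (y 7) (h 1) (y 3) (y 8) (h 2) (y 4) (y 9) (h 3)
    (y 5) (y 10) (y 13) (h 4) (y 11) (h 7) (y 14) (h 5) (y 12) (h 6) (h 8)

lemma Blk.congr {lo hi : ℕ} {b b' : Fin 3 → Fin 111} {D : Fin 4 → ℕ} (h : Blk x lo hi b D)
    (hb : ∀ k, b k = b' k) : Blk x lo hi b' D := by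
  have : b = b' := funext hb
  rw [← this]
  exact h

theorem Valid.sub (hx : Valid x) (h : Fin 15 → Fin 111) (m0 m1 m2 m3 m4 m5 m6 m7 m8 m9 : ℕ)
    (d0 d1 d2 d3 d4 d5 d6 d7 d8 d9 : Fin 4 → ℕ)
    (h1 : Blk x m0 m1 (fun k => h (inc 1 k)) d1) (h2 : Blk x m1 m2 (fun k => h (inc 2 k)) d2)
    (h3 : Blk x m2 m3 (fun k => h (inc 3 k)) d3) (h4 : Blk x m3 m4 (fun k => h (inc 4 k)) d4)
    (h5 : Blk x m4 m5 (fun k => h (inc 5 k)) d5) (h6 : Blk x m5 m6 (fun k => h (inc 6 k)) d6)
    (h7 : Blk x m6 m7 (fun k => h (inc 7 k)) d7) (h8 : Blk x m7 m8 (fun k => h (inc 8 k)) d8)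
    (h9 : Blk x m8 m9 (fun k => h (inc 9 k)) d9)
    (hm : m0 ≤ m1 ∧ m1 ≤ m2 ∧ m2 ≤ m3 ∧ m3 ≤ m4 ∧ m4 ≤ m5 ∧ m5 ≤ m6 ∧ m6 ≤ m7 ∧ m7 ≤ m8 ∧
      m8 ≤ m9) (hc : check ![d0, d1, d2, d3, d4, d5, d6, d7, d8, d9]) :
    Blk x m0 m9 (fun k => h (inc 0 k)) d0 := by
  have hp : ∀ i, xor3 (x (h (inc 0 0)) i) (x (h (inc 0 1)) i) (x (h (inc 0 2)) i) = true := by
    intro i
    apply par_aux (fun e => x (h e) i)
    intro j
    fin_cases j
    · exact h1.par i
    · exact h2.par i
    · exact h3.par i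
    · exact h4.par i
    · exact h5.par i
    · exact h6.par i
    · exact h7.par i
    · exact h8.par i
    · exact h9.par i
  refine ⟨hp, ?_⟩
  have key := host (fun e => x (h e)) (by
      intro i
      refine ⟨?_, hx.wt _, hx.wt _, hx.wt _⟩
      fin_cases i
      · exact hp
      · exact h1.par
      · exact h2.par
      · exact h3.par
      · exact h4.par
      · exact h5.par
      · exact h6.par
      · exact h7.par
      · exact h8.par
      · exact h9.par) _ hc (fun i => tyX x (fun k => h (inc i k))) (fun i => rfl)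
  have l1 := h1.low
  have l2 := h2.low
  have l3 := h3.low
  have l4 := h4.low
  have l5 := h5.low
  have l6 := h6.low
  have l7 := h7.low
  have l8 := h8.low
  have l9 := h9.low
  have key' : d0 (tyX x fun k => h (inc 0 k)) ≤ d1 (tyX x fun k => h (inc 1 k)) +
      d2 (tyX x fun k => h (inc 2 k)) + d3 (tyX x fun k => h (inc 3 k)) +
      d4 (tyX x fun k => h (inc 4 k)) + d5 (tyX x fun k => h (inc 5 k)) +
      d6 (tyX x fun k => h (inc 6 k)) + d7 (tyX x fun k => h (inc 7 k)) +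
      d8 (tyX x fun k => h (inc 8 k)) + d9 (tyX x fun k => h (inc 9 k)) := key
  obtain ⟨q1, q2, q3, q4, q5, q6, q7, q8, q9⟩ := hm
  have s2 := Finset.sum_Ico_consecutive (st x) q1 q2
  have s3 := Finset.sum_Ico_consecutive (st x) (q1.trans q2) q3
  have s4 := Finset.sum_Ico_consecutive (st x) ((q1.trans q2).trans q3) q4
  have s5 := Finset.sum_Ico_consecutive (st x) (((q1.trans q2).trans q3).trans q4) q5
  have s6 := Finset.sum_Ico_consecutive (st x) ((((q1.trans q2).trans q3).trans q4).trans q5) q6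
  have s7 := Finset.sum_Ico_consecutive (st x)
    (((((q1.trans q2).trans q3).trans q4).trans q5).trans q6) q7
  have s8 := Finset.sum_Ico_consecutive (st x)
    ((((((q1.trans q2).trans q3).trans q4).trans q5).trans q6).trans q7) q8
  have s9 := Finset.sum_Ico_consecutive (st x)
    (((((((q1.trans q2).trans q3).trans q4).trans q5).trans q6).trans q7).trans q8) q9
  omega

lemma Valid.b0 (hx : Valid x) : Blk x 4 13 ![2, 10, 13] ![1, 1, 1, 0] := by
  have H := hx.sub ![2, 15, 16, 17, 10, 13, 18, 19, 20, 21, 22, 23, 24, 25, 26] 4 5 6 7 8 9 10 11 12 13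
    ![1, 1, 1, 0] D1 D1 D1 D1 D1 D1 D1 D1 D1
    (hx.vert 4 (by norm_num) _ (by decide))
    (hx.vert 5 (by norm_num) _ (by decide))
    (hx.vert 6 (by norm_num) _ (by decide))
    (hx.vert 7 (by norm_num) _ (by decide))
    (hx.vert 8 (by norm_num) _ (by decide))
    (hx.vert 9 (by norm_num) _ (by decide))
    (hx.vert 10 (by norm_num) _ (by decide))
    (hx.vert 11 (by norm_num) _ (by decide))
    (hx.vert 12 (by norm_num) _ (by decide))
    (by norm_num) (by decide +kernel)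
  exact H.congr (by decide)

lemma Valid.b1 (hx : Valid x) : Blk x 16 25 ![28, 29, 32] ![1, 1, 1, 0] := by
  have H := hx.sub ![28, 39, 40, 41, 29, 32, 42, 43, 44, 45, 46, 47, 48, 49, 50] 16 17 18 19 20 21 22 23 24 25
    ![1, 1, 1, 0] D1 D1 D1 D1 D1 D1 D1 D1 D1
    (hx.vert 16 (by norm_num) _ (by decide))
    (hx.vert 17 (by norm_num) _ (by decide))
    (hx.vert 18 (by norm_num) _ (by decide))
    (hx.vert 19 (by norm_num) _ (by decide))
    (hx.vert 20 (by norm_num) _ (by decide))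
    (hx.vert 21 (by norm_num) _ (by decide))
    (hx.vert 22 (by norm_num) _ (by decide))
    (hx.vert 23 (by norm_num) _ (by decide))
    (hx.vert 24 (by norm_num) _ (by decide))
    (by norm_num) (by decide +kernel)
  exact H.congr (by decide)

lemma Valid.b2 (hx : Valid x) : Blk x 14 31 ![7, 10, 12] ![0, 1, 0, 1] := by
  have H := hx.sub ![7, 27, 28, 29, 10, 12, 30, 31, 32, 33, 34, 35, 36, 37, 38] 14 15 16 25 26 27 28 29 30 31
    ![0, 1, 0, 1] D1 D1 ![1, 1, 1, 0] D1 D1 D1 D1 D1 D1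
    (hx.vert 14 (by norm_num) _ (by decide))
    (hx.vert 15 (by norm_num) _ (by decide))
    (Blk.congr (hx.b1) (by decide))
    (hx.vert 25 (by norm_num) _ (by decide))
    (hx.vert 26 (by norm_num) _ (by decide))
    (hx.vert 27 (by norm_num) _ (by decide))
    (hx.vert 28 (by norm_num) _ (by decide))
    (hx.vert 29 (by norm_num) _ (by decide))
    (hx.vert 30 (by norm_num) _ (by decide))
    (by norm_num) (by decide +kernel)
  exact H.congr (by decide)

lemma Valid.b3 (hx : Valid x) : Blk x 0 33 ![0, 1, 2] ![2, 2, 1, 1] := by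
  have H := hx.sub ![0, 3, 4, 5, 1, 2, 6, 7, 8, 9, 10, 11, 12, 13, 14] 0 1 2 3 4 13 14 31 32 33
    ![2, 2, 1, 1] D1 D1 D1 D1 ![1, 1, 1, 0] D1 ![0, 1, 0, 1] D1 D1
    (hx.vert 0 (by norm_num) _ (by decide))
    (hx.vert 1 (by norm_num) _ (by decide))
    (hx.vert 2 (by norm_num) _ (by decide))
    (hx.vert 3 (by norm_num) _ (by decide))
    (Blk.congr (hx.b0) (by decide))
    (hx.vert 13 (by norm_num) _ (by decide))
    (Blk.congr (hx.b2) (by decide))
    (hx.vert 31 (by norm_num) _ (by decide))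
    (hx.vert 32 (by norm_num) _ (by decide))
    (by norm_num) (by decide +kernel)
  exact H.congr (by decide)

lemma Valid.b4 (hx : Valid x) : Blk x 38 47 ![63, 75, 78] ![1, 1, 1, 0] := by
  have H := hx.sub ![63, 87, 88, 89, 75, 78, 90, 91, 92, 93, 94, 95, 96, 97, 98] 38 39 40 41 42 43 44 45 46 47
    ![1, 1, 1, 0] D1 D1 D1 D1 D1 D1 D1 D1 D1
    (hx.vert 38 (by norm_num) _ (by decide))
    (hx.vert 39 (by norm_num) _ (by decide))
    (hx.vert 40 (by norm_num) _ (by decide))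
    (hx.vert 41 (by norm_num) _ (by decide))
    (hx.vert 42 (by norm_num) _ (by decide))
    (hx.vert 43 (by norm_num) _ (by decide))
    (hx.vert 44 (by norm_num) _ (by decide))
    (hx.vert 45 (by norm_num) _ (by decide))
    (hx.vert 46 (by norm_num) _ (by decide))
    (by norm_num) (by decide +kernel)
  exact H.congr (by decide)

lemma Valid.b5 (hx : Valid x) : Blk x 38 55 ![63, 64, 67] ![0, 2, 2, 0] := by
  have H := hx.sub ![63, 75, 76, 77, 64, 67, 78, 79, 80, 81, 82, 83, 84, 85, 86] 38 47 48 49 50 51 52 53 54 55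
    ![0, 2, 2, 0] ![1, 1, 1, 0] D1 D1 D1 D1 D1 D1 D1 D1
    (Blk.congr (hx.b4) (by decide))
    (hx.vert 47 (by norm_num) _ (by decide))
    (hx.vert 48 (by norm_num) _ (by decide))
    (hx.vert 49 (by norm_num) _ (by decide))
    (hx.vert 50 (by norm_num) _ (by decide))
    (hx.vert 51 (by norm_num) _ (by decide))
    (hx.vert 52 (by norm_num) _ (by decide))
    (hx.vert 53 (by norm_num) _ (by decide))
    (hx.vert 54 (by norm_num) _ (by decide))
    (by norm_num) (by decide +kernel)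
  exact H.congr (by decide)

lemma Valid.b6 (hx : Valid x) : Blk x 57 66 ![61, 70, 73] ![1, 1, 1, 0] := by
  have H := hx.sub ![61, 99, 100, 101, 70, 73, 102, 103, 104, 105, 106, 107, 108, 109, 110] 57 58 59 60 61 62 63 64 65 66
    ![1, 1, 1, 0] D1 D1 D1 D1 D1 D1 D1 D1 D1
    (hx.vert 57 (by norm_num) _ (by decide))
    (hx.vert 58 (by norm_num) _ (by decide))
    (hx.vert 59 (by norm_num) _ (by decide))
    (hx.vert 60 (by norm_num) _ (by decide))
    (hx.vert 61 (by norm_num) _ (by decide))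
    (hx.vert 62 (by norm_num) _ (by decide))
    (hx.vert 63 (by norm_num) _ (by decide))
    (hx.vert 64 (by norm_num) _ (by decide))
    (hx.vert 65 (by norm_num) _ (by decide))
    (by norm_num) (by decide +kernel)
  exact H.congr (by decide)

lemma Valid.b7 (hx : Valid x) : Blk x 37 70 ![2, 58, 61] ![2, 1, 0, 2] := by
  have H := hx.sub ![2, 63, 64, 65, 58, 61, 66, 67, 68, 69, 70, 71, 72, 73, 74] 37 38 55 56 57 66 67 68 69 70
    ![2, 1, 0, 2] D1 ![0, 2, 2, 0] D1 D1 ![1, 1, 1, 0] D1 D1 D1 D1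
    (hx.vert 37 (by norm_num) _ (by decide))
    (Blk.congr (hx.b5) (by decide))
    (hx.vert 55 (by norm_num) _ (by decide))
    (hx.vert 56 (by norm_num) _ (by decide))
    (Blk.congr (hx.b6) (by decide))
    (hx.vert 66 (by norm_num) _ (by decide))
    (hx.vert 67 (by norm_num) _ (by decide))
    (hx.vert 68 (by norm_num) _ (by decide))
    (hx.vert 69 (by norm_num) _ (by decide))
    (by norm_num) (by decide +kernel)
  exact H.congr (by decide)

lemma Valid.b8 (hx : Valid x) : Blk x 33 74 ![0, 1, 2] ![1, 1, 2, 2] := by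
  have H := hx.sub ![0, 51, 52, 53, 1, 2, 54, 55, 56, 57, 58, 59, 60, 61, 62] 33 34 35 36 37 70 71 72 73 74
    ![1, 1, 2, 2] D1 D1 D1 D1 ![2, 1, 0, 2] D1 D1 D1 D1
    (hx.vert 33 (by norm_num) _ (by decide))
    (hx.vert 34 (by norm_num) _ (by decide))
    (hx.vert 35 (by norm_num) _ (by decide))
    (hx.vert 36 (by norm_num) _ (by decide))
    (Blk.congr (hx.b7) (by decide))
    (hx.vert 70 (by norm_num) _ (by decide))
    (hx.vert 71 (by norm_num) _ (by decide))
    (hx.vert 72 (by norm_num) _ (by decide))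
    (hx.vert 73 (by norm_num) _ (by decide))
    (by norm_num) (by decide +kernel)
  exact H.congr (by decide)

theorem Valid.three (hx : Valid x) : 3 ≤ ∑ v ∈ Finset.Ico 0 74, st x v := by
  have h1 := (hx.b3).low
  have h2 := (hx.b8).low
  have h3 := Finset.sum_Ico_consecutive (st x) (show 0 ≤ 33 by norm_num) (show 33 ≤ 74 by norm_num)
  have h4 : ∀ t : Fin 4, 3 ≤ (![2, 2, 1, 1] : Fin 4 → ℕ) t + (![1, 1, 2, 2] : Fin 4 → ℕ) t := by decide
  have h5 := h4 (tyX x ![0, 1, 2])
  omega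

end Q108.SCT
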