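import Pool.Agent.Q108.SCT.Defs

set_option autoImplicit false

/-!
A cycle cover of length 150, and 3-edge-connectivity.
-/

namespace Q108.SCT

section general

variable {V : Type} {G : SimpleGraph V}

/-- the consecutive pairs of a list -/
def pairs : List V → List (Sym2 V)
  | [] => []
  | [_] => []
  | a :: b :: l => s(a, b) :: pairs (b :: l)

lemma exists_walk : ∀ (l : List V) (a b : V), (a :: l).IsChain G.Adj →
    (a :: l).getLast? = some b →
    ∃ p : G.Walk a b, p.support = a :: l ∧ p.edges = pairs (a :: l) ∧ p.length = l.length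
  | [], a, b, _, hb => by
    simp at hb
    subst hb
    exact ⟨SimpleGraph.Walk.nil, rfl, rfl, rfl⟩
  | c :: l, a, b, hc, hb => by
    rw [List.isChain_cons_cons] at hc
    obtain ⟨p, h1, h2, h3⟩ := exists_walk l c b hc.2 (by simpa using hb)
    refine ⟨SimpleGraph.Walk.cons hc.1 p, ?_, ?_, ?_⟩
    · rw [SimpleGraph.Walk.support_cons, h1]
    · rw [SimpleGraph.Walk.edges_cons, h2]
      rfl
    · rw [SimpleGraph.Walk.length_cons, h3]
      rfl

lemma closing_not_mem {u v : V} (p : G.Walk u v) (hp : p.IsPath) (hl : 2 ≤ p.length) :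
    s(v, u) ∉ p.edges := by
  cases p with
  | nil => simp at hl
  | cons h q =>
    rename_i x
    rw [SimpleGraph.Walk.cons_isPath_iff] at hp
    rw [SimpleGraph.Walk.edges_cons, List.mem_cons]
    rintro (h1 | h1)
    · rw [Sym2.eq_iff] at h1
      rcases h1 with ⟨h1, h2⟩ | ⟨h1, h2⟩
      · subst h1
        exact hp.2 q.end_mem_support
      · subst h1
        have := hp.1
        rw [SimpleGraph.Walk.isPath_iff_eq_nil] at this
        subst this
        simp at hl
    · exact hp.2 (q.snd_mem_support_of_mem_edges h1)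

/-- a cycle from a list of vertices -/
lemma exists_cycle (l : List V) (a b : V) (hc : (a :: l).IsChain G.Adj) (hn : (a :: l).Nodup)
    (hb : (a :: l).getLast? = some b) (ha : G.Adj b a) (h3 : 2 ≤ l.length) :
    ∃ C : Σ u : V, G.Walk u u, C.2.IsCycle ∧ C.2.length = l.length + 1 ∧
      (∀ e ∈ pairs (a :: l), e ∈ C.2.edges) ∧ s(b, a) ∈ C.2.edges := by
  obtain ⟨p, h1, h2, h4⟩ := exists_walk l a b hc hb
  have h5 : p.IsPath := by
    rw [SimpleGraph.Walk.isPath_def, h1]
    exact hn
  refine ⟨⟨b, SimpleGraph.Walk.cons ha p⟩, ?_, ?_, ?_, ?_⟩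
  · rw [SimpleGraph.Walk.cons_isCycle_iff]
    exact ⟨h5, closing_not_mem _ h5 (by omega)⟩
  · show (SimpleGraph.Walk.cons ha p).length = _
    rw [SimpleGraph.Walk.length_cons, h4]
  · intro e he
    show e ∈ (SimpleGraph.Walk.cons ha p).edges
    rw [SimpleGraph.Walk.edges_cons, h2]
    exact List.mem_cons_of_mem _ he
  · show _ ∈ (SimpleGraph.Walk.cons ha p).edges
    rw [SimpleGraph.Walk.edges_cons]
    exact List.mem_cons_self

/-- the list `a :: l` with last element `b` is a cycle -/
def okCyc (G : SimpleGraph V) (a b : V) (l : List V) : Prop :=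
  (a :: l).IsChain G.Adj ∧ (a :: l).Nodup ∧ (a :: l).getLast? = some b ∧ G.Adj b a ∧ 2 ≤ l.length

/-- the edges of the cycle -/
def cycEdges (a b : V) (l : List V) : List (Sym2 V) := s(b, a) :: pairs (a :: l)

lemma exists_family (G : SimpleGraph V) : ∀ (L : List (V × V × List V)),
    (∀ c ∈ L, okCyc G c.1 c.2.1 c.2.2) →
    ∃ F : List (Σ u : V, G.Walk u u), (∀ C ∈ F, C.2.IsCycle) ∧
      coverLength F = (L.map fun c => c.2.2.length + 1).sum ∧
      ∀ c ∈ L, ∀ e ∈ cycEdges c.1 c.2.1 c.2.2, ∃ C ∈ F, e ∈ C.2.edges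
  | [], _ => ⟨[], by simp, by simp [coverLength], by simp⟩
  | c :: L, h => by
    obtain ⟨F, h1, h2, h3⟩ := exists_family G L (fun l hl => h l (List.mem_cons_of_mem _ hl))
    obtain ⟨g1, g2, g3, g4, g5⟩ := h c List.mem_cons_self
    obtain ⟨C, c1, c2, c3, c4⟩ := exists_cycle c.2.2 c.1 c.2.1 g1 g2 g3 g4 g5
    refine ⟨C :: F, ?_, ?_, ?_⟩
    · intro C' hC'
      rcases List.mem_cons.1 hC' with rfl | hC'
      · exact c1
      · exact h1 C' hC'
    · unfold coverLength at h2 ⊢
      rw [List.map_cons, List.sum_cons, List.map_cons, List.sum_cons, h2, c2]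
    · intro l' hl' e he
      rcases List.mem_cons.1 hl' with rfl | hl'
      · refine ⟨C, List.mem_cons_self, ?_⟩
        unfold cycEdges at he
        rcases List.mem_cons.1 he with he | he
        · rw [he]; exact c4
        · exact c3 e he
      · obtain ⟨C', hC', hC''⟩ := h3 l' hl' e he
        exact ⟨C', List.mem_cons_of_mem _ hC', hC''⟩

lemma reach_list (s : Set (Sym2 V)) : ∀ (l : List V) (a b : V), (a :: l).IsChain G.Adj →
    (a :: l).getLast? = some b → (∀ e ∈ pairs (a :: l), e ∉ s) → (G.deleteEdges s).Reachable a b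
  | [], a, b, _, hb, _ => by
    simp at hb
    rw [hb]
  | c :: l, a, b, hc, hb, hs => by
    rw [List.isChain_cons_cons] at hc
    have h1 : (G.deleteEdges s).Adj a c := by
      rw [SimpleGraph.deleteEdges_adj]
      exact ⟨hc.1, hs _ (by simp [pairs])⟩
    refine h1.reachable.trans (reach_list s l c b hc.2 (by simpa using hb) ?_)
    intro e he
    exact hs e (by rw [pairs]; exact List.mem_cons_of_mem _ he)

/-- certificate for three edge-disjoint paths -/
def okPaths (G : SimpleGraph V) (a b : V) (l1 l2 : List V) : Prop :=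
  G.Adj a b ∧ (a :: l1).IsChain G.Adj ∧ (a :: l2).IsChain G.Adj ∧
    (a :: l1).getLast? = some b ∧ (a :: l2).getLast? = some b ∧
    (∀ e ∈ pairs (a :: l1), e ≠ s(a, b) ∧ e ∉ pairs (a :: l2)) ∧ s(a, b) ∉ pairs (a :: l2)

lemma reach3 {a b : V} {l1 l2 : List V} (h : okPaths G a b l1 l2) : G.IsEdgeReachable 3 a b := by
  obtain ⟨h0, h1, h2, h3, h4, h5, h6⟩ := h
  intro s hs
  by_cases c0 : s(a, b) ∈ s
  · by_cases c1 : ∀ e ∈ pairs (a :: l1), e ∉ s
    · exact reach_list s l1 a b h1 h3 c1
    · by_cases c2 : ∀ e ∈ pairs (a :: l2), e ∉ s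
      · exact reach_list s l2 a b h2 h4 c2
      · exfalso
        push Not at c1 c2
        obtain ⟨e1, he1, hs1⟩ := c1
        obtain ⟨e2, he2, hs2⟩ := c2
        have n1 : e1 ≠ s(a, b) := (h5 e1 he1).1
        have n2 : e2 ≠ s(a, b) := fun h => h6 (h ▸ he2)
        have n3 : e1 ≠ e2 := fun h => (h5 e1 he1).2 (h ▸ he2)
        have hsub : ({s(a, b), e1, e2} : Set (Sym2 V)) ⊆ s := by
          intro e he
          rcases he with rfl | rfl | rfl
          · exact c0
          · exact hs1
          · exact hs2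
        have h7 := Set.encard_le_encard hsub
        rw [Set.encard_insert_of_notMem (by
            simp only [Set.mem_insert_iff, Set.mem_singleton_iff, not_or]
            exact ⟨Ne.symm n1, Ne.symm n2⟩), Set.encard_pair n3] at h7
        have h8 : ((2 : ℕ∞) + 1) = ((3 : ℕ) : ℕ∞) := rfl
        rw [h8] at h7
        exact absurd (lt_of_le_of_lt h7 hs) (lt_irrefl _)
  · refine (SimpleGraph.Adj.reachable ?_)
    rw [SimpleGraph.deleteEdges_adj]
    exact ⟨h0, c0⟩

end general

end Q108.SCT
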