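import Pool.Agent.Q108.SCT.Data
import Pool.Agent.Q108.SCT.PathLib

set_option autoImplicit false

/-!
A cycle cover of length 150, and 3-edge-connectivity.
-/

namespace Q108.SCT

/-- a code of an unordered pair -/
def code (a b : Fin 74) : ℕ := if a.val ≤ b.val then 74 * a.val + b.val else 74 * b.val + a.val

lemma code_comm (a b : Fin 74) : code a b = code b a := by
  unfold code
  split_ifs with h1 h2 h2
  · have : a.val = b.val := by omega
    omega
  · rfl
  · rfl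
  · omega

lemma code_inj {a b c d : Fin 74} (h : code a b = code c d) : s(a, b) = s(c, d) := by
  rw [Sym2.eq_iff]
  have ha := a.2
  have hb := b.2
  have hc := c.2
  have hd := d.2
  unfold code at h
  split_ifs at h with h1 h2 h2
  · left; exact ⟨Fin.ext (by omega), Fin.ext (by omega)⟩
  · right; exact ⟨Fin.ext (by omega), Fin.ext (by omega)⟩
  · right; exact ⟨Fin.ext (by omega), Fin.ext (by omega)⟩
  · left; exact ⟨Fin.ext (by omega), Fin.ext (by omega)⟩

/-- the code of an edge -/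
def cd : Sym2 (Fin 74) → ℕ := Sym2.lift ⟨code, code_comm⟩

lemma cd_inj : Function.Injective cd := by
  intro e f
  induction e with
  | _ a b =>
    induction f with
    | _ c d => exact fun h => code_inj h

def pairsN : List (Fin 74) → List ℕ
  | [] => []
  | [_] => []
  | a :: b :: l => code a b :: pairsN (b :: l)

lemma pairsN_eq : ∀ l : List (Fin 74), pairsN l = (pairs l).map cd
  | [] => rfl
  | [_] => rfl
  | a :: b :: l => by
    rw [pairsN, pairs, List.map_cons, pairsN_eq (b :: l)]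
    rfl

def memN (x : ℕ) : List ℕ → Bool
  | [] => false
  | y :: l => Nat.beq x y || memN x l

lemma memN_iff {x : ℕ} : ∀ {l : List ℕ}, memN x l = true ↔ x ∈ l
  | [] => by simp [memN]
  | y :: l => by
    rw [memN, Bool.or_eq_true, Nat.beq_eq, memN_iff, List.mem_cons]

lemma mem_pairs {e : Sym2 (Fin 74)} {l : List (Fin 74)} :
    memN (cd e) (pairsN l) = true ↔ e ∈ pairs l := by
  rw [memN_iff, pairsN_eq, List.mem_map]
  constructor
  · rintro ⟨f, hf, h⟩
    rw [← cd_inj h]; exact hf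
  · exact fun h => ⟨e, h, rfl⟩

def chainN : List (Fin 74) → Bool
  | [] => true
  | [_] => true
  | a :: b :: l => adjB a.val b.val && chainN (b :: l)

lemma chainN_iff : ∀ {l : List (Fin 74)}, chainN l = true → l.IsChain Gr.Adj
  | [], _ => List.isChain_nil
  | [a], _ => List.isChain_singleton a
  | a :: b :: l, h => by
    rw [chainN, Bool.and_eq_true] at h
    rw [List.isChain_cons_cons]
    exact ⟨h.1, chainN_iff h.2⟩

def lastN (a : Fin 74) : List (Fin 74) → Fin 74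
  | [] => a
  | b :: l => lastN b l

lemma lastN_eq : ∀ (a : Fin 74) (l : List (Fin 74)), (a :: l).getLast? = some (lastN a l)
  | a, [] => rfl
  | a, b :: l => by
    rw [List.getLast?_cons_cons, lastN_eq b l, lastN]

def nodupN : List (Fin 74) → Bool
  | [] => true
  | a :: l => l.all (fun b => !(Nat.beq a.val b.val)) && nodupN l

lemma nodupN_iff : ∀ {l : List (Fin 74)}, nodupN l = true → l.Nodup
  | [], _ => List.nodup_nil
  | a :: l, h => by
    rw [nodupN, Bool.and_eq_true, List.all_eq_true] at h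
    rw [List.nodup_cons]
    refine ⟨fun ha => ?_, nodupN_iff h.2⟩
    have := h.1 a ha
    simp at this

def okC (c : Fin 74 × Fin 74 × List (Fin 74)) : Bool :=
  chainN (c.1 :: c.2.2) && nodupN (c.1 :: c.2.2) && Nat.beq (lastN c.1 c.2.2).val c.2.1.val &&
    adjB c.2.1.val c.1.val && Nat.ble 2 c.2.2.length

lemma okC_iff {c : Fin 74 × Fin 74 × List (Fin 74)} (h : okC c = true) :
    okCyc Gr c.1 c.2.1 c.2.2 := by
  unfold okC at h
  simp only [Bool.and_eq_true] at h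
  obtain ⟨⟨⟨⟨h1, h2⟩, h3⟩, h4⟩, h5⟩ := h
  refine ⟨chainN_iff h1, nodupN_iff h2, ?_, h4, Nat.le_of_ble_eq_true h5⟩
  rw [lastN_eq]
  exact congrArg some (Fin.ext (Nat.eq_of_beq_eq_true h3))

/-- the ten cycles -/
def cycs : List (Fin 74 × Fin 74 × List (Fin 74)) :=
  [(3, 2, [36, 35, 34, 71, 56, 55, 68, 61, 63, 65, 60, 67, 50, 53, 51, 42, 44, 39, 38, 37, 4, 9,
     11, 8, 31, 2]),
    (19, 18, [25, 30, 27, 29, 20, 23, 18]),
    (0, 13, [33, 70, 73, 36, 35, 72, 57, 62, 64, 61, 68, 66, 69, 56, 55, 49, 48, 47, 41, 46, 43,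
     38, 37, 4, 5, 10, 12, 9, 11, 6, 7, 25, 19, 24, 21, 16, 15, 14, 1, 2, 3, 32, 13]),
    (0, 1, [33, 34, 71, 73, 70, 72, 57, 58, 59, 60, 67, 69, 66, 37, 4, 5, 6, 7, 12, 10, 8, 31,
     13, 32, 26, 28, 30, 27, 14, 1]),
    (17, 22, [18, 23, 21, 24, 22]),
    (41, 40, [47, 52, 54, 51, 42, 45, 40]),
    (15, 28, [16, 17, 22, 20, 29, 26, 28]),
    (48, 53, [49, 54, 52, 50, 53]),
    (39, 44, [40, 45, 43, 46, 44]),
    (58, 63, [59, 64, 62, 65, 63])]

lemma cycs_sum : (cycs.map fun c => c.2.2.length + 1).sum = 150 := by decide +kernel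

lemma cycs_ok : cycs.all okC = true := by decide +kernel

def covB (e : Fin 111) : Bool :=
  cycs.any fun c => Nat.beq (code (en1 e) (en2 e)) (code c.2.1 c.1) ||
    memN (code (en1 e) (en2 e)) (pairsN (c.1 :: c.2.2))

lemma cycs_cover : (List.finRange 111).all covB = true := by decide +kernel

theorem exists_cover : ∃ F : List (Σ u : Fin 74, Gr.Walk u u), IsCycleCover Gr F ∧
    coverLength F = 150 := by
  obtain ⟨F, h1, h2, h3⟩ := exists_family Gr cycs
    (fun c hc => okC_iff (List.all_eq_true.1 cycs_ok c hc))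
  refine ⟨F, ⟨h1, ?_⟩, by rw [h2, cycs_sum]⟩
  intro e
  induction e with
  | _ u v =>
    intro huv
    obtain ⟨e, he⟩ := exists_en u v huv
    have h4 := List.all_eq_true.1 cycs_cover e (List.mem_finRange e)
    unfold covB at h4
    rw [List.any_eq_true] at h4
    obtain ⟨c, hc, h4⟩ := h4
    have : s(u, v) = s(en1 e, en2 e) := by
      rcases he with ⟨h4, h5⟩ | ⟨h4, h5⟩
      · rw [h4, h5]
      · rw [h4, h5, Sym2.eq_swap]
    rw [this]
    apply h3 c hc
    unfold cycEdges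
    rw [List.mem_cons]
    rw [Bool.or_eq_true] at h4
    rcases h4 with h4 | h4
    · left
      exact code_inj (Nat.eq_of_beq_eq_true h4)
    · right
      exact mem_pairs.1 h4

/-- parents in a spanning tree -/
def prs : List (Fin 74) :=
  [0, 0, 1, 2, 5, 10, 11, 25, 31, 11, 8, 8, 10, 0, 1, 14, 15, 16, 17, 25, 29, 16, 17, 21, 21, 30,
   32, 14, 15, 27, 27, 13, 13, 0, 33, 34, 3, 4, 37, 38, 39, 47, 51, 38, 39, 43, 43, 48, 49, 55,
   67, 54, 54, 48, 49, 56, 71, 72, 57, 58, 67, 68, 57, 58, 62, 62, 69, 69, 55, 56, 33, 34, 70, 70]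

def dps : List ℕ :=
  [0, 1, 2, 3, 6, 5, 5, 6, 3, 5, 4, 4, 5, 1, 2, 3, 4, 5, 6, 6, 5, 5, 6, 6, 6, 5, 3, 3, 4, 4, 4,
   2, 2, 1, 2, 3, 4, 7, 8, 9, 10, 9, 9, 9, 10, 10, 10, 8, 7, 6, 7, 8, 8, 8, 7, 5, 4, 4, 5, 6, 7,
   7, 5, 6, 6, 6, 6, 6, 6, 5, 2, 3, 3, 3]

/-- for every vertex two more paths to its parent -/
def certs : List (List (Fin 74) × List (Fin 74)) :=
  [([], []),
    ([2, 3, 36, 73, 70, 33, 0],
      [14, 15, 28, 26, 32, 13, 0]),
    ([3, 32, 26, 28, 15, 14, 1],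
      [31, 13, 0, 1]),
    ([36, 73, 70, 33, 0, 1, 2],
      [32, 13, 31, 2]),
    ([37, 66, 69, 56, 71, 73, 36, 3, 2, 31, 8, 10, 5],
      [9, 11, 6, 5]),
    ([4, 9, 12, 10],
      [6, 11, 8, 10]),
    ([5, 10, 8, 11],
      [7, 12, 9, 11]),
    ([6, 11, 8, 31, 13, 32, 26, 28, 30, 25],
      [12, 9, 4, 37, 66, 69, 56, 71, 34, 33, 0, 1, 14, 15, 16, 17, 18, 19, 25]),
    ([10, 12, 7, 25, 30, 27, 14, 1, 2, 31],
      [11, 9, 4, 37, 66, 69, 56, 71, 34, 33, 0, 13, 31]),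
    ([4, 5, 6, 11],
      [12, 10, 8, 11]),
    ([5, 6, 11, 8],
      [12, 7, 25, 30, 27, 14, 1, 2, 31, 8]),
    ([6, 7, 25, 30, 27, 14, 1, 2, 31, 8],
      [9, 12, 10, 8]),
    ([7, 6, 5, 10],
      [9, 11, 8, 10]),
    ([31, 2, 1, 0],
      [32, 3, 36, 73, 70, 33, 0]),
    ([15, 28, 26, 32, 13, 0, 1],
      [27, 30, 25, 7, 6, 11, 8, 31, 2, 1]),
    ([16, 17, 22, 20, 29, 27, 14],
      [28, 26, 32, 13, 0, 1, 14]),
    ([17, 18, 19, 25, 30, 28, 15],
      [21, 23, 20, 29, 27, 14, 15]),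
    ([18, 23, 21, 16],
      [22, 20, 29, 27, 14, 15, 16]),
    ([19, 24, 22, 17],
      [23, 21, 16, 17]),
    ([18, 23, 20, 29, 27, 30, 25],
      [24, 21, 16, 15, 14, 1, 2, 31, 8, 10, 12, 7, 25]),
    ([22, 24, 19, 25, 30, 27, 29],
      [23, 21, 16, 15, 28, 26, 29]),
    ([23, 18, 17, 16],
      [24, 19, 25, 30, 28, 15, 16]),
    ([20, 23, 18, 17],
      [24, 21, 16, 17]),
    ([18, 17, 16, 21],
      [20, 22, 24, 21]),
    ([19, 18, 23, 21],
      [22, 17, 16, 21]),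
    ([7, 6, 11, 8, 31, 13, 32, 26, 28, 30],
      [19, 18, 23, 20, 29, 27, 30]),
    ([28, 30, 25, 7, 6, 11, 8, 31, 13, 32],
      [29, 27, 14, 1, 2, 3, 32]),
    ([29, 26, 32, 13, 0, 1, 14],
      [30, 28, 15, 14]),
    ([26, 29, 20, 22, 17, 16, 15],
      [30, 27, 14, 15]),
    ([20, 22, 17, 16, 15, 14, 27],
      [26, 28, 30, 27]),
    ([25, 19, 18, 23, 20, 29, 27],
      [28, 15, 14, 27]),
    ([2, 1, 0, 13],
      [8, 10, 12, 7, 25, 30, 28, 26, 32, 13]),
    ([3, 2, 31, 13],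
      [26, 28, 15, 14, 1, 0, 13]),
    ([34, 71, 56, 69, 66, 37, 4, 5, 10, 8, 31, 13, 0],
      [70, 73, 36, 3, 2, 1, 0]),
    ([35, 36, 3, 32, 13, 0, 33],
      [71, 73, 70, 33]),
    ([36, 73, 71, 34],
      [72, 70, 33, 34]),
    ([35, 34, 33, 0, 13, 32, 3],
      [73, 71, 56, 69, 66, 37, 4, 5, 10, 8, 31, 2, 3]),
    ([38, 39, 40, 41, 47, 52, 50, 67, 60, 65, 62, 57, 72, 70, 33, 0, 1, 14, 27, 30, 25, 7, 12, 9,
     4],
      [66, 69, 56, 71, 73, 36, 3, 2, 31, 8, 10, 5, 4]),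
    ([39, 40, 41, 47, 48, 49, 55, 56, 71, 73, 36, 3, 2, 31, 8, 10, 5, 4, 37],
      [43, 45, 42, 51, 53, 50, 67, 69, 66, 37]),
    ([40, 45, 43, 38],
      [44, 42, 51, 53, 50, 67, 69, 66, 37, 38]),
    ([41, 46, 44, 39],
      [45, 43, 38, 39]),
    ([40, 45, 42, 51, 53, 48, 47],
      [46, 43, 38, 37, 66, 69, 67, 50, 52, 47]),
    ([44, 46, 41, 47, 48, 53, 51],
      [45, 43, 38, 37, 66, 68, 55, 49, 54, 51]),
    ([45, 40, 39, 38],
      [46, 41, 47, 48, 49, 55, 68, 66, 37, 38]),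
    ([42, 45, 40, 39],
      [46, 43, 38, 39]),
    ([40, 39, 38, 43],
      [42, 44, 46, 43]),
    ([41, 40, 45, 43],
      [44, 39, 38, 43]),
    ([41, 40, 45, 42, 51, 53, 48],
      [52, 54, 49, 48]),
    ([47, 52, 54, 49],
      [53, 50, 67, 69, 56, 55, 49]),
    ([48, 53, 50, 67, 69, 56, 55],
      [54, 51, 42, 44, 39, 38, 37, 66, 68, 55]),
    ([52, 54, 49, 55, 68, 61, 63, 65, 60, 67],
      [53, 51, 42, 44, 39, 38, 37, 66, 69, 67]),
    ([42, 44, 46, 41, 47, 52, 54],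
      [53, 48, 49, 54]),
    ([47, 48, 49, 54],
      [50, 53, 51, 54]),
    ([51, 54, 49, 48],
      [50, 52, 47, 48]),
    ([52, 50, 67, 69, 56, 55, 49],
      [51, 53, 48, 49]),
    ([49, 48, 53, 50, 67, 69, 56],
      [68, 61, 63, 58, 57, 72, 35, 34, 71, 56]),
    ([55, 68, 61, 63, 58, 57, 72, 35, 34, 71],
      [69, 66, 37, 4, 5, 10, 8, 31, 2, 3, 36, 73, 71]),
    ([58, 59, 60, 67, 69, 56, 71, 73, 70, 72],
      [62, 64, 61, 68, 66, 37, 4, 5, 10, 8, 31, 2, 3, 36, 35, 72]),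
    ([59, 64, 62, 57],
      [63, 61, 68, 55, 56, 71, 73, 70, 72, 57]),
    ([60, 65, 63, 58],
      [64, 62, 57, 58]),
    ([59, 64, 61, 68, 55, 49, 48, 53, 50, 67],
      [65, 62, 57, 72, 35, 34, 71, 56, 69, 67]),
    ([63, 65, 60, 67, 69, 66, 68],
      [64, 62, 57, 72, 35, 34, 71, 56, 55, 68]),
    ([64, 59, 58, 57],
      [65, 60, 67, 69, 56, 71, 73, 70, 72, 57]),
    ([61, 64, 59, 58],
      [65, 62, 57, 58]),
    ([59, 58, 57, 62],
      [61, 63, 65, 62]),
    ([60, 59, 64, 62],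
      [63, 58, 57, 62]),
    ([37, 38, 39, 40, 41, 47, 52, 50, 67, 69],
      [68, 55, 56, 69]),
    ([50, 52, 54, 49, 55, 56, 69],
      [60, 59, 64, 61, 68, 66, 69]),
    ([66, 69, 56, 55],
      [61, 63, 65, 60, 67, 50, 52, 54, 49, 55]),
    ([67, 60, 65, 62, 57, 72, 35, 34, 71, 56],
      [66, 68, 55, 56]),
    ([72, 35, 34, 33],
      [73, 36, 3, 32, 13, 0, 33]),
    ([56, 55, 68, 61, 63, 58, 57, 72, 35, 34],
      [73, 70, 33, 34]),
    ([35, 34, 33, 70],
      [57, 58, 59, 60, 67, 69, 56, 71, 73, 70]),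
    ([36, 35, 72, 70],
      [71, 34, 33, 70])]

def pr (v : Fin 74) : Fin 74 := prs.getD v.val 0

def dp (v : Fin 74) : ℕ := dps.getD v.val 0

def okP (a b : Fin 74) (l1 l2 : List (Fin 74)) : Bool :=
  adjB a.val b.val && chainN (a :: l1) && chainN (a :: l2) && Nat.beq (lastN a l1).val b.val &&
    Nat.beq (lastN a l2).val b.val &&
    (pairsN (a :: l1)).all (fun e => !(Nat.beq e (code a b)) && !(memN e (pairsN (a :: l2)))) &&
    !(memN (code a b) (pairsN (a :: l2)))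

lemma okP_iff {a b : Fin 74} {l1 l2 : List (Fin 74)} (h : okP a b l1 l2 = true) :
    okPaths Gr a b l1 l2 := by
  unfold okP at h
  simp only [Bool.and_eq_true] at h
  obtain ⟨⟨⟨⟨⟨⟨h1, h2⟩, h3⟩, h4⟩, h5⟩, h6⟩, h7⟩ := h
  refine ⟨h1, chainN_iff h2, chainN_iff h3, ?_, ?_, ?_, ?_⟩
  · rw [lastN_eq]
    exact congrArg some (Fin.ext (Nat.eq_of_beq_eq_true h4))
  · rw [lastN_eq]
    exact congrArg some (Fin.ext (Nat.eq_of_beq_eq_true h5))
  · intro e he
    rw [List.all_eq_true] at h6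
    have h8 : cd e ∈ pairsN (a :: l1) := by
      rw [pairsN_eq]
      exact List.mem_map_of_mem he
    have h9 := h6 _ h8
    rw [Bool.and_eq_true] at h9
    constructor
    · rintro rfl
      have h10 := h9.1
      rw [show cd s(a, b) = code a b from rfl, Nat.beq_refl] at h10
      exact absurd h10 (by decide)
    · intro h10
      rw [mem_pairs.2 h10] at h9
      exact absurd h9.2 (by decide)
  · intro h10
    rw [show code a b = cd s(a, b) from rfl, mem_pairs.2 h10] at h7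
    exact absurd h7 (by decide)

lemma certs_ok : (List.finRange 74).all (fun v => Nat.beq v.val 0 ||
    (okP v (pr v) (certs.getD v.val ([], [])).1 (certs.getD v.val ([], [])).2 &&
      Nat.ble (dp (pr v) + 1) (dp v))) = true := by
  decide +kernel

theorem conn3 : Gr.IsEdgeConnected 3 := by
  have h : ∀ (n : ℕ) (v : Fin 74), dp v = n → Gr.IsEdgeReachable 3 v 0 := by
    intro n
    induction n using Nat.strong_induction_on with
    | _ n ih =>
      intro v hv
      by_cases h0 : v = 0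
      · rw [h0]
      · have h1 := List.all_eq_true.1 certs_ok v (List.mem_finRange v)
        rw [Bool.or_eq_true, Bool.and_eq_true] at h1
        rcases h1 with h1 | ⟨h1, h2⟩
        · exact absurd (Fin.ext (Nat.eq_of_beq_eq_true h1)) h0
        · have h3 := Nat.le_of_ble_eq_true h2
          exact (reach3 (okP_iff h1)).trans (ih _ (by rw [← hv]; omega) (pr v) rfl)
  intro u v
  exact (h _ u rfl).trans (h _ v rfl).symm

end Q108.SCT
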