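import Mathlib

set_option autoImplicit false

/-!
Cycle covers, expansions of vertices into triangles, covers by four perfect matchings.
-/

namespace Q108.SCT

/-- `G_U`: every vertex `v ∈ U` is expanded into a triangle. A vertex `v ∉ U` is kept, as the pair
`(v, v)`; a vertex `v ∈ U` becomes the pairs `(v, w)`, `w` a neighbour of `v`, which are pairwise
adjacent, and the end at `v` of the edge `vw` is attached to `(v, w)`. -/
def expand {V : Type} (G : SimpleGraph V) (U : Set V) :
    SimpleGraph {p : V × V // (p.1 ∉ U ∧ p.2 = p.1) ∨ (p.1 ∈ U ∧ G.Adj p.1 p.2)} where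
  Adj p q := (p.1.1 = q.1.1 ∧ p ≠ q) ∨
    (G.Adj p.1.1 q.1.1 ∧ (p.1.1 ∈ U → p.1.2 = q.1.1) ∧ (q.1.1 ∈ U → q.1.2 = p.1.1))
  symm := ⟨by
    rintro p q (⟨h1, h2⟩ | ⟨h1, h2, h3⟩)
    · exact Or.inl ⟨h1.symm, h2.symm⟩
    · exact Or.inr ⟨h1.symm, h3, h2⟩⟩
  loopless := ⟨by
    rintro p (⟨_, h⟩ | ⟨h, _⟩)
    · exact h rfl
    · exact G.irrefl h⟩

/-- `H` has four perfect matchings (not necessarily distinct) that cover all its edges. -/
def FourPMCoverable {W : Type} (H : SimpleGraph W) : Prop :=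
  ∃ M : Fin 4 → H.Subgraph, (∀ i, (M i).IsPerfectMatching) ∧ ∀ e ∈ H.edgeSet, ∃ i, e ∈ (M i).edgeSet

/-- `T(G)`: the minimum of `|U|` over the vertex sets `U` for which `G_U` is coverable by four
perfect matchings (and infinity if there is no such `U`). -/
noncomputable def T {V : Type} (G : SimpleGraph V) : ℕ∞ :=
  ⨅ (U : Finset V) (_ : FourPMCoverable (expand G (U : Set V))), (U.card : ℕ∞)

/-- A cycle cover: a finite list of cycles such that every edge lies in one of them. -/
def IsCycleCover {V : Type} (G : SimpleGraph V) (F : List (Σ u : V, G.Walk u u)) : Prop :=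
  (∀ C ∈ F, C.2.IsCycle) ∧ ∀ e ∈ G.edgeSet, ∃ C ∈ F, e ∈ C.2.edges

/-- The length of a family of cycles. -/
def coverLength {V : Type} {G : SimpleGraph V} (F : List (Σ u : V, G.Walk u u)) : ℕ :=
  (F.map fun C => C.2.length).sum

/-- `scc(G)`: the minimum length of a cycle cover. -/
noncomputable def scc {V : Type} (G : SimpleGraph V) : ℕ :=
  sInf {n : ℕ | ∃ F : List (Σ u : V, G.Walk u u), IsCycleCover G F ∧ coverLength F = n}

end Q108.SCT
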