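import Pool.Agent.Q108.SCT.Blocks
import Pool.Agent.Q108.SCT.Defs

set_option autoImplicit false

/-!
From four perfect matchings of an expansion to a labelling.
-/

namespace Q108.SCT

section pm

variable {U : Set (Fin 74)} {M : Fin 4 → (expand Gr U).Subgraph}
  (hM : ∀ i, (M i).IsPerfectMatching) (hc : ∀ e ∈ (expand Gr U).edgeSet, ∃ i, e ∈ (M i).edgeSet)

/-- the edge of the expansion that comes from `vw` is in the `i`-th matching -/
def inM (M : Fin 4 → (expand Gr U).Subgraph) (v w : Fin 74) (i : Fin 4) : Prop :=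
  ∃ p q, p.1.1 = v ∧ q.1.1 = w ∧ (v ∈ U → p.1.2 = w) ∧ (w ∈ U → q.1.2 = v) ∧ (M i).Adj p q

lemma inM_symm {v w : Fin 74} {i : Fin 4} (h : inM M v w i) : inM M w v i := by
  obtain ⟨p, q, h1, h2, h3, h4, h5⟩ := h
  exact ⟨q, p, h2, h1, h4, h3, h5.symm⟩

include hM in
lemma one_out {v : Fin 74} (hv : v ∉ U) (i : Fin 4) :
    ∃ k, inM M v (nb v k) i ∧ ∀ k', inM M v (nb v k') i → k' = k := by
  let a : {p : Fin 74 × Fin 74 // (p.1 ∉ U ∧ p.2 = p.1) ∨ (p.1 ∈ U ∧ Gr.Adj p.1 p.2)} :=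
    ⟨(v, v), Or.inl ⟨hv, rfl⟩⟩
  obtain ⟨q, hq, hq'⟩ := (hM i).1 ((hM i).2 a)
  have hadj := (M i).adj_sub hq
  have hG : Gr.Adj v q.1.1 ∧ (q.1.1 ∈ U → q.1.2 = v) := by
    rcases hadj with ⟨h1, h2⟩ | ⟨h1, h2, h3⟩
    · exfalso
      apply h2
      have h1' : v = q.1.1 := h1
      rcases q.2 with ⟨h3, h4⟩ | ⟨h3, h4⟩
      · apply Subtype.ext
        apply Prod.ext
        · exact h1'
        · show v = q.1.2
          rw [h4]; exact h1'
      · rw [← h1'] at h3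
        exact absurd h3 hv
    · exact ⟨h1, h3⟩
  obtain ⟨k, hk⟩ := exists_nb v _ hG.1
  refine ⟨k, ⟨a, q, rfl, hk.symm, fun h => absurd h hv, ?_, hq⟩, ?_⟩
  · rw [hk]; exact hG.2
  · rintro k' ⟨p, q', h1, h2, h3, h4, h5⟩
    have hp : p = a := by
      rcases p.2 with ⟨h6, h7⟩ | ⟨h6, h7⟩
      · apply Subtype.ext
        apply Prod.ext
        · exact h1
        · show p.1.2 = v
          rw [h7]; exact h1
      · rw [h1] at h6; exact absurd h6 hv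
    subst hp
    have := hq' q' h5
    apply nb_inj v
    rw [← h2, this, hk]

/-- the vertex of the triangle at `v` that is attached to the `k`-th edge -/
def tv {v : Fin 74} (hv : v ∈ U) (k : Fin 3) :
    {p : Fin 74 × Fin 74 // (p.1 ∉ U ∧ p.2 = p.1) ∨ (p.1 ∈ U ∧ Gr.Adj p.1 p.2)} :=
  ⟨(v, nb v k), Or.inr ⟨hv, adj_nb v k⟩⟩

lemma tv_inj {v : Fin 74} (hv : v ∈ U) {k k' : Fin 3} (h : tv hv k = tv hv k') : k = k' := by
  have h1 := congrArg (fun p => p.1.2) h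
  exact nb_inj v k k' h1

lemma eq_tv {v : Fin 74} (hv : v ∈ U)
    (p : {p : Fin 74 × Fin 74 // (p.1 ∉ U ∧ p.2 = p.1) ∨ (p.1 ∈ U ∧ Gr.Adj p.1 p.2)})
    (hp : p.1.1 = v) : ∃ k, p = tv hv k ∧ p.1.2 = nb v k := by
  rcases p.2 with ⟨h6, h7⟩ | ⟨h6, h7⟩
  · rw [hp] at h6; exact absurd hv h6
  · rw [hp] at h7
    obtain ⟨k, hk⟩ := exists_nb v _ h7
    refine ⟨k, ?_, hk.symm⟩
    apply Subtype.ext
    apply Prod.ext
    · exact hp
    · exact hk.symm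

include hM in
/-- At a vertex of a triangle exactly one of three edges is in the matching. -/
lemma one_in {v : Fin 74} (hv : v ∈ U) (i : Fin 4) (k k1 k2 : Fin 3)
    (hk : ∀ j : Fin 3, j = k ∨ j = k1 ∨ j = k2) (h01 : k ≠ k1) (h02 : k ≠ k2) (h12 : k1 ≠ k2) :
    (inM M v (nb v k) i ∧ ¬ (M i).Adj (tv hv k) (tv hv k1) ∧ ¬ (M i).Adj (tv hv k) (tv hv k2)) ∨
    (¬ inM M v (nb v k) i ∧ (M i).Adj (tv hv k) (tv hv k1) ∧ ¬ (M i).Adj (tv hv k) (tv hv k2)) ∨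
    (¬ inM M v (nb v k) i ∧ ¬ (M i).Adj (tv hv k) (tv hv k1) ∧
      (M i).Adj (tv hv k) (tv hv k2)) := by
  obtain ⟨q, hq, hq'⟩ := (hM i).1 ((hM i).2 (tv hv k))
  -- an outer edge in the matching is the edge to q
  have hout : inM M v (nb v k) i → q.1.1 ≠ v := by
    rintro ⟨p, q', h1, h2, h3, h4, h5⟩ hqv
    have hp : p = tv hv k := by
      apply Subtype.ext
      apply Prod.ext
      · exact h1
      · exact h3 hv
    subst hp
    have := hq' q' h5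
    rw [this] at h2
    have h6 := adj_nb v k
    rw [← h2, hqv] at h6
    exact Gr.irrefl h6
  have hin : ∀ j, (M i).Adj (tv hv k) (tv hv j) → q = tv hv j := fun j hj => (hq' _ hj).symm
  have hadj := (M i).adj_sub hq
  rcases hadj with ⟨h1, h2⟩ | ⟨h1, h2, h3⟩
  · have hqv : q.1.1 = v := h1.symm
    obtain ⟨j, hj, _⟩ := eq_tv hv q hqv
    have hn : ¬ inM M v (nb v k) i := fun h => hout h hqv
    rcases hk j with rfl | rfl | rfl
    · exact absurd hj.symm h2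
    · right; left
      refine ⟨hn, hj ▸ hq, fun h => ?_⟩
      have := hin _ h
      rw [hj] at this
      exact h12 (tv_inj hv this)
    · right; right
      refine ⟨hn, fun h => ?_, hj ▸ hq⟩
      have := hin _ h
      rw [hj] at this
      exact h12 (tv_inj hv this).symm
  · left
    have h2' : nb v k = q.1.1 := h2 hv
    have h1' : Gr.Adj v q.1.1 := h1
    have hne : q.1.1 ≠ v := fun h => by rw [h] at h1'; exact Gr.irrefl h1'
    refine ⟨⟨tv hv k, q, rfl, h2'.symm, fun _ => rfl, ?_, hq⟩, fun h => ?_, fun h => ?_⟩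
    · rw [h2']; exact h3
    · exact hne (by rw [hin _ h]; rfl)
    · exact hne (by rw [hin _ h]; rfl)

/-- the labelling -/
noncomputable def lab (M : Fin 4 → (expand Gr U).Subgraph) : Fin 111 → Fin 4 → Bool :=
  open Classical in fun e i => decide (inM M (en1 e) (en2 e) i)

lemma lab_ei {v : Fin 74} {k : Fin 3} {i : Fin 4} :
    lab M (ei v k) i = true ↔ inM M v (nb v k) i := by
  classical
  unfold lab
  rcases en_ei v k with ⟨h1, h2⟩ | ⟨h1, h2⟩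
  · rw [h1, h2]
    exact decide_eq_true_iff
  · rw [h1, h2]
    exact decide_eq_true_iff.trans ⟨inM_symm, inM_symm⟩

include hc in
lemma cover_out (v : Fin 74) (k : Fin 3) : ∃ i, inM M v (nb v k) i := by
  classical
  -- the two ends of the edge in the expansion
  have hend : ∀ a b : Fin 74, Gr.Adj a b →
      ∃ p : {p : Fin 74 × Fin 74 // (p.1 ∉ U ∧ p.2 = p.1) ∨ (p.1 ∈ U ∧ Gr.Adj p.1 p.2)},
        p.1.1 = a ∧ (a ∈ U → p.1.2 = b) := by
    intro a b hab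
    by_cases ha : a ∈ U
    · exact ⟨⟨(a, b), Or.inr ⟨ha, hab⟩⟩, rfl, fun _ => rfl⟩
    · exact ⟨⟨(a, a), Or.inl ⟨ha, rfl⟩⟩, rfl, fun h => absurd h ha⟩
  obtain ⟨p, hp1, hp2⟩ := hend v (nb v k) (adj_nb v k)
  obtain ⟨q, hq1, hq2⟩ := hend (nb v k) v (adj_nb v k).symm
  have hadj : (expand Gr U).Adj p q := by
    right
    rw [hp1, hq1]
    exact ⟨adj_nb v k, hp2, hq2⟩
  obtain ⟨i, hi⟩ := hc s(p, q) hadj
  exact ⟨i, p, q, hp1, hq1, hp2, hq2, hi⟩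

include hc in
lemma cover_in {v : Fin 74} (hv : v ∈ U) {k k' : Fin 3} (hk : k ≠ k') :
    ∃ i, (M i).Adj (tv hv k) (tv hv k') := by
  have hadj : (expand Gr U).Adj (tv hv k) (tv hv k') := by
    left
    exact ⟨rfl, fun h => hk (tv_inj hv h)⟩
  obtain ⟨i, hi⟩ := hc s(_, _) hadj
  exact ⟨i, hi⟩

lemma prop3 (o0 o1 o2 t01 t02 t12 : Prop)
    (h0 : (o0 ∧ ¬ t01 ∧ ¬ t02) ∨ (¬ o0 ∧ t01 ∧ ¬ t02) ∨ (¬ o0 ∧ ¬ t01 ∧ t02))
    (h1 : (o1 ∧ ¬ t01 ∧ ¬ t12) ∨ (¬ o1 ∧ t01 ∧ ¬ t12) ∨ (¬ o1 ∧ ¬ t01 ∧ t12))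
    (h2 : (o2 ∧ ¬ t02 ∧ ¬ t12) ∨ (¬ o2 ∧ t02 ∧ ¬ t12) ∨ (¬ o2 ∧ ¬ t02 ∧ t12)) :
    (o0 ∧ o1 ∧ o2 ∧ ¬ t01 ∧ ¬ t02 ∧ ¬ t12) ∨ (o0 ∧ ¬ o1 ∧ ¬ o2 ∧ ¬ t01 ∧ ¬ t02 ∧ t12) ∨
    (¬ o0 ∧ o1 ∧ ¬ o2 ∧ ¬ t01 ∧ t02 ∧ ¬ t12) ∨ (¬ o0 ∧ ¬ o1 ∧ o2 ∧ t01 ∧ ¬ t02 ∧ ¬ t12) := by
  rcases h0 with ⟨a0, a1, a2⟩ | ⟨a0, a1, a2⟩ | ⟨a0, a1, a2⟩
  · rcases h1 with ⟨b0, b1, b2⟩ | ⟨b0, b1, b2⟩ | ⟨b0, b1, b2⟩
    · rcases h2 with ⟨c0, c1, c2⟩ | ⟨c0, c1, c2⟩ | ⟨c0, c1, c2⟩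
      · exact Or.inl ⟨a0, b0, c0, a1, a2, b2⟩
      · exact absurd c1 a2
      · exact absurd c2 b2
    · exact absurd b1 a1
    · rcases h2 with ⟨c0, c1, c2⟩ | ⟨c0, c1, c2⟩ | ⟨c0, c1, c2⟩
      · exact absurd b2 c2
      · exact absurd c1 a2
      · exact Or.inr (Or.inl ⟨a0, b0, c0, a1, a2, b2⟩)
  · rcases h1 with ⟨b0, b1, b2⟩ | ⟨b0, b1, b2⟩ | ⟨b0, b1, b2⟩
    · exact absurd a1 b1
    · rcases h2 with ⟨c0, c1, c2⟩ | ⟨c0, c1, c2⟩ | ⟨c0, c1, c2⟩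
      · exact Or.inr (Or.inr (Or.inr ⟨a0, b0, c0, a1, a2, b2⟩))
      · exact absurd c1 a2
      · exact absurd c2 b2
    · exact absurd a1 b1
  · rcases h1 with ⟨b0, b1, b2⟩ | ⟨b0, b1, b2⟩ | ⟨b0, b1, b2⟩
    · rcases h2 with ⟨c0, c1, c2⟩ | ⟨c0, c1, c2⟩ | ⟨c0, c1, c2⟩
      · exact absurd a2 c1
      · exact Or.inr (Or.inr (Or.inl ⟨a0, b0, c0, a1, a2, b2⟩))
      · exact absurd a2 c1
    · exact absurd b1 a1
    · rcases h2 with ⟨c0, c1, c2⟩ | ⟨c0, c1, c2⟩ | ⟨c0, c1, c2⟩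
      · exact absurd a2 c1
      · exact absurd b2 c2
      · exact absurd a2 c1

/-- the pattern of a matching at a vertex: the unique edge, or 3 if all three edges are in it -/
def pat (t : Fin 4) (k : Fin 3) : Bool := decide (t = k.castSucc) || decide (t = 3)

lemma bool_eq {b : Bool} {p : Prop} (h : b = true ↔ p) (c : Bool) (hc : p ↔ c = true) : b = c := by
  cases b <;> cases c <;> simp_all

lemma cs3 : ∀ k : Fin 3, k.castSucc ≠ 3 := by decide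

lemma pat_ne3 : ∀ (s : Fin 4) (j : Fin 3), pat s j = true → s ≠ 3 → s = j.castSucc := by decide

include hM in
lemma pat_out {v : Fin 74} (hv : v ∉ U) (i : Fin 4) :
    ∃ t : Fin 4, t ≠ 3 ∧ ∀ k, lab M (ei v k) i = pat t k := by
  obtain ⟨k, hk, hk'⟩ := one_out hM hv i
  refine ⟨k.castSucc, cs3 k, fun j => ?_⟩
  apply bool_eq lab_ei
  constructor
  · intro h
    rw [hk' j h]
    simp [pat]
  · intro h
    have : j = k := by
      clear hk hk'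
      revert h; revert j k; decide
    rw [this]; exact hk

include hM in
lemma pat_in {v : Fin 74} (hv : v ∈ U) (i : Fin 4) :
    ∃ t : Fin 4, (∀ k, lab M (ei v k) i = pat t k) ∧
      ((M i).Adj (tv hv 1) (tv hv 2) → t = 0) ∧ ((M i).Adj (tv hv 0) (tv hv 2) → t = 1) ∧
      ((M i).Adj (tv hv 0) (tv hv 1) → t = 2) := by
  have h0 := one_in hM hv i 0 1 2 (by decide) (by decide) (by decide) (by decide)
  have h1 := one_in hM hv i 1 0 2 (by decide) (by decide) (by decide) (by decide)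
  have h2 := one_in hM hv i 2 0 1 (by decide) (by decide) (by decide) (by decide)
  have s10 : (M i).Adj (tv hv 1) (tv hv 0) ↔ (M i).Adj (tv hv 0) (tv hv 1) :=
    (M i).adj_comm _ _
  have s20 : (M i).Adj (tv hv 2) (tv hv 0) ↔ (M i).Adj (tv hv 0) (tv hv 2) :=
    (M i).adj_comm _ _
  have s21 : (M i).Adj (tv hv 2) (tv hv 1) ↔ (M i).Adj (tv hv 1) (tv hv 2) :=
    (M i).adj_comm _ _
  rw [s10] at h1
  rw [s20, s21] at h2
  have l0 : lab M (ei v 0) i = true ↔ inM M v (nb v 0) i := lab_ei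
  have l1 : lab M (ei v 1) i = true ↔ inM M v (nb v 1) i := lab_ei
  have l2 : lab M (ei v 2) i = true ↔ inM M v (nb v 2) i := lab_ei
  rcases prop3 _ _ _ _ _ _ h0 h1 h2 with ⟨a0, a1, a2, a3, a4, a5⟩ | ⟨a0, a1, a2, a3, a4, a5⟩ |
    ⟨a0, a1, a2, a3, a4, a5⟩ | ⟨a0, a1, a2, a3, a4, a5⟩
  · refine ⟨3, ?_, fun h => absurd h a5, fun h => absurd h a4, fun h => absurd h a3⟩
    intro k
    fin_cases k
    · exact l0.2 a0
    · exact l1.2 a1
    · exact l2.2 a2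
  · refine ⟨0, ?_, fun _ => rfl, fun h => absurd h a4, fun h => absurd h a3⟩
    intro k
    fin_cases k
    · exact l0.2 a0
    · exact Bool.eq_false_iff.2 (fun h => a1 (l1.1 h))
    · exact Bool.eq_false_iff.2 (fun h => a2 (l2.1 h))
  · refine ⟨1, ?_, fun h => absurd h a5, fun _ => rfl, fun h => absurd h a3⟩
    intro k
    fin_cases k
    · exact Bool.eq_false_iff.2 (fun h => a0 (l0.1 h))
    · exact l1.2 a1
    · exact Bool.eq_false_iff.2 (fun h => a2 (l2.1 h))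
  · refine ⟨2, ?_, fun h => absurd h a5, fun h => absurd h a4, fun _ => rfl⟩
    intro k
    fin_cases k
    · exact Bool.eq_false_iff.2 (fun h => a0 (l0.1 h))
    · exact Bool.eq_false_iff.2 (fun h => a1 (l1.1 h))
    · exact l2.2 a2

lemma pats : ∀ t0 t1 t2 t3 : Fin 4,
    (∀ j : Fin 3, t0 = j.castSucc ∨ t1 = j.castSucc ∨ t2 = j.castSucc ∨ t3 = j.castSucc) →
    (∀ k : Fin 3, (pat t0 k).toNat + (pat t1 k).toNat + (pat t2 k).toNat + (pat t3 k).toNat = 1 ∨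
      (pat t0 k).toNat + (pat t1 k).toNat + (pat t2 k).toNat + (pat t3 k).toNat = 2) ∧
    (t0 ≠ 3 → t1 ≠ 3 → t2 ≠ 3 → t3 ≠ 3 → tyB
      (decide ((pat t0 0).toNat + (pat t1 0).toNat + (pat t2 0).toNat + (pat t3 0).toNat = 1))
      (decide ((pat t0 1).toNat + (pat t1 1).toNat + (pat t2 1).toNat + (pat t3 1).toNat = 1))
      (decide ((pat t0 2).toNat + (pat t1 2).toNat + (pat t2 2).toNat + (pat t3 2).toNat = 1))
        ≠ 3) := by
  decide +kernel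

lemma pat_par : ∀ t : Fin 4, xor3 (pat t 0) (pat t 1) (pat t 2) = true := by decide

include hM hc in
lemma main_pat (v : Fin 74) : ∃ t : Fin 4 → Fin 4, (∀ i k, lab M (ei v k) i = pat (t i) k) ∧
    (∀ j : Fin 3, t 0 = j.castSucc ∨ t 1 = j.castSucc ∨ t 2 = j.castSucc ∨ t 3 = j.castSucc) ∧
    (v ∉ U → ∀ i, t i ≠ 3) := by
  have h4 : ∀ (P : Fin 4 → Prop), (∃ i, P i) → P 0 ∨ P 1 ∨ P 2 ∨ P 3 := by
    rintro P ⟨i, hi⟩
    fin_cases i
    · exact Or.inl hi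
    · exact Or.inr (Or.inl hi)
    · exact Or.inr (Or.inr (Or.inl hi))
    · exact Or.inr (Or.inr (Or.inr hi))
  by_cases hv : v ∈ U
  · choose t ht h0 h1 h2 using fun i => pat_in hM hv i
    refine ⟨t, ht, ?_, fun h => absurd hv h⟩
    intro j
    apply h4 (fun i => t i = j.castSucc)
    fin_cases j
    · obtain ⟨i, hi⟩ := cover_in hc hv (show (1 : Fin 3) ≠ 2 by decide)
      exact ⟨i, h0 i hi⟩
    · obtain ⟨i, hi⟩ := cover_in hc hv (show (0 : Fin 3) ≠ 2 by decide)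
      exact ⟨i, h1 i hi⟩
    · obtain ⟨i, hi⟩ := cover_in hc hv (show (0 : Fin 3) ≠ 1 by decide)
      exact ⟨i, h2 i hi⟩
  · choose t ht3 ht using fun i => pat_out hM hv i
    refine ⟨t, ht, ?_, fun _ => ht3⟩
    intro j
    apply h4 (fun i => t i = j.castSucc)
    obtain ⟨i, hi⟩ := cover_out hc v j
    refine ⟨i, ?_⟩
    have h5 := lab_ei.2 hi
    rw [ht i j] at h5
    exact pat_ne3 _ _ h5 (ht3 i)

include hM hc in
lemma valid : Valid (lab M) := by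
  constructor
  · intro v i
    obtain ⟨t, ht, _, _⟩ := main_pat hM hc v
    rw [ht i 0, ht i 1, ht i 2]
    exact pat_par _
  · intro e
    obtain ⟨k, hk⟩ := exists_ei e
    obtain ⟨t, ht, h1, _⟩ := main_pat hM hc (en1 e)
    have h2 := (pats (t 0) (t 1) (t 2) (t 3) h1).1 k
    rw [← hk]
    unfold w
    rw [ht 0 k, ht 1 k, ht 2 k, ht 3 k]
    exact h2

include hM hc in
lemma star_mem (v : Fin 74) (h : tyX (lab M) (ei v) = 3) : v ∈ U := by
  by_contra hv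
  obtain ⟨t, ht, h1, h2⟩ := main_pat hM hc v
  have h3 := (pats (t 0) (t 1) (t 2) (t 3) h1).2 (h2 hv 0) (h2 hv 1) (h2 hv 2) (h2 hv 3)
  apply h3
  refine Eq.trans ?_ h
  unfold tyX Y w
  rw [ht 0 0, ht 1 0, ht 2 0, ht 3 0, ht 0 1, ht 1 1, ht 2 1, ht 3 1, ht 0 2, ht 1 2, ht 2 2,
    ht 3 2]

end pm

/-- At least three vertices must be expanded. -/
theorem three_le (U : Finset (Fin 74)) (h : FourPMCoverable (expand Gr (U : Set (Fin 74)))) :
    3 ≤ U.card := by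
  obtain ⟨M, hM, hc⟩ := h
  have h1 := (valid hM hc).three
  refine h1.trans ?_
  have h2 : ∑ v ∈ Finset.Ico 0 74, st (lab M) v = ∑ v : Fin 74, st (lab M) v.val := by
    rw [← Finset.range_eq_Ico, Finset.sum_range]
  rw [h2]
  calc ∑ v : Fin 74, st (lab M) v.val ≤ ∑ v : Fin 74, if v ∈ U then 1 else 0 := by
        apply Finset.sum_le_sum
        intro v _
        unfold st
        rw [dif_pos v.2]
        by_cases h3 : tyX (lab M) (ei v) = 3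
        · have h4 := star_mem hM hc v h3
          rw [Finset.mem_coe] at h4
          rw [if_pos h4]
          split_ifs <;> omega
        · have : ¬ tyX (lab M) (ei ⟨v.val, v.2⟩) = 3 := h3
          rw [if_neg this]
          exact Nat.zero_le _
    _ = U.card := by simp

end Q108.SCT
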