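import Pool.Agent.Q108.SCT.Expand
import Pool.Agent.Q108.SCT.Cover

set_option autoImplicit false

/-! The numerical facts. -/

namespace Q108.SCT

theorem card_edges : Gr.edgeSet.ncard = 111 := by
  have hinj : Function.Injective (fun e : Fin 111 => s(en1 e, en2 e)) := by
    intro e e' h
    rw [Sym2.eq_iff] at h
    exact en_inj e e' h
  have hr : Gr.edgeSet = Set.range (fun e : Fin 111 => s(en1 e, en2 e)) := by
    ext e
    induction e with
    | _ u v =>
      rw [SimpleGraph.mem_edgeSet]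
      constructor
      · intro h
        obtain ⟨e, he⟩ := exists_en u v h
        refine ⟨e, ?_⟩
        show s(en1 e, en2 e) = s(u, v)
        rcases he with ⟨h4, h5⟩ | ⟨h4, h5⟩
        · rw [h4, h5]
        · rw [h4, h5, Sym2.eq_swap]
      · rintro ⟨e, he⟩
        have := adj_en e
        rw [← SimpleGraph.mem_edgeSet] at this
        rw [← SimpleGraph.mem_edgeSet, ← he]
        exact this
  rw [hr, ← Set.image_univ, Set.ncard_image_of_injective _ hinj, Set.ncard_univ]
  simp

theorem cubic (v : Fin 74) : (Gr.neighborSet v).ncard = 3 := by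
  have hr : Gr.neighborSet v = Set.range (nb v) := by
    ext w
    rw [SimpleGraph.mem_neighborSet]
    constructor
    · intro h
      obtain ⟨k, hk⟩ := exists_nb v w h
      exact ⟨k, hk⟩
    · rintro ⟨k, rfl⟩
      exact adj_nb v k
  rw [hr, ← Set.image_univ, Set.ncard_image_of_injective _ (fun a b h => nb_inj v a b h),
    Set.ncard_univ]
  simp

theorem scc_le : scc Gr ≤ 150 := Nat.sInf_le exists_cover

theorem scc_attained : ∃ F, IsCycleCover Gr F ∧ coverLength F = scc Gr := by
  have h : {n : ℕ | ∃ F : List (Σ u : Fin 74, Gr.Walk u u), IsCycleCover Gr F ∧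
    coverLength F = n}.Nonempty := ⟨150, exists_cover⟩
  exact Nat.sInf_mem h

theorem three_le_T : (3 : ℕ∞) ≤ T Gr := by
  unfold T
  apply le_iInf
  intro U
  apply le_iInf
  intro h
  exact_mod_cast three_le U h

theorem main : ((3 * scc Gr : ℕ) : ℕ∞) < ((4 * Gr.edgeSet.ncard : ℕ) : ℕ∞) + 3 * T Gr := by
  rw [card_edges]
  have h1 : ((3 * scc Gr : ℕ) : ℕ∞) ≤ ((450 : ℕ) : ℕ∞) := by
    have := scc_le
    exact_mod_cast (by omega : 3 * scc Gr ≤ 450)
  have h2 : ((453 : ℕ) : ℕ∞) ≤ ((4 * 111 : ℕ) : ℕ∞) + 3 * T Gr := by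
    calc ((453 : ℕ) : ℕ∞) = ((4 * 111 : ℕ) : ℕ∞) + 3 * 3 := by norm_num
      _ ≤ _ := by gcongr; exact three_le_T
  refine lt_of_le_of_lt h1 (lt_of_lt_of_le ?_ h2)
  exact_mod_cast (by norm_num : 450 < 453)

end Q108.SCT
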