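import Pool.Agent.Q108.SCT.Data

set_option autoImplicit false

/-!
The Petersen graph as a host: labellings of its 15 edges by subsets of a 4-set.
-/

namespace Q108.SCT

def inc (i : Fin 10) (k : Fin 3) : Fin 15 :=
  ![![0, 4, 5], ![0, 1, 6], ![1, 2, 7], ![2, 3, 8], ![3, 4, 9], ![5, 10, 13], ![6, 11, 14], ![7, 10, 12], ![8, 11, 13], ![9, 12, 14]] i k

def xor3 (a b c : Bool) : Bool := xor (xor a b) c

def even3 (a b c : Bool) : Bool := !(xor3 a b c)

def one3 (a b c : Bool) : Bool := (a && !b && !c) || (!a && b && !c) || (!a && !b && c)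

/-- the type of a triple of parities: the position of the even edge, or 3 if all are even -/
def tyB (a b c : Bool) : Fin 4 :=
  if !a && b && c then 0 else if a && !b && c then 1 else if a && b && !c then 2 else 3

def ttTab : ℕ := 13538780042653239810645924677678093992041090315693689429164713412451003861712678506579308407775288585768386857881185690920035599305035620937152090164637665360655699720401374601897771383771172437926784638270054891399500788125413277844180610693846854933574952122501114807581265059078816259648415452885429135684119748772148595336582123408413934128146862919278039084359468820848496869375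

/-- the types at the ten vertices of the even subgraph number `z` -/
def tt (z : Fin 64) (i : Fin 10) : Fin 4 :=
  Fin.ofNat 4 ((ttTab >>> (2 * (10 * z.val + i.val))) % 4)

/-- both values -/
def allB (f : Bool → Bool) : Bool := f false && f true

def impB (a b : Bool) : Bool := !a || b

lemma allB_iff {f : Bool → Bool} : allB f = true ↔ ∀ b, f b = true := by
  unfold allB
  rw [Bool.and_eq_true, Bool.forall_bool]

lemma impB_iff {a b : Bool} : impB a b = true ↔ (a = true → b = true) := by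
  unfold impB
  cases a <;> cases b <;> simp

lemma host_par_aux0 : (allB fun y0 => allB fun y4 => allB fun y5 => impB (even3 y0 y4 y5) <|
    allB fun y1 => allB fun y6 => impB (even3 y0 y1 y6) <|
    allB fun y2 => allB fun y7 => impB (even3 y1 y2 y7) <|
    allB fun y3 => allB fun y8 => impB (even3 y2 y3 y8) <|
    allB fun y9 => impB (even3 y3 y4 y9) <|
    allB fun y10 => allB fun y13 => impB (even3 y5 y10 y13) <|
    allB fun y11 => impB (even3 y8 y11 y13) <|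
    allB fun y14 => impB (even3 y6 y11 y14) <|
    allB fun y12 => impB (even3 y7 y10 y12) <| impB (even3 y9 y12 y14) <|
    decide (∃ z : Fin 64, tyB y0 y4 y5 = tt z 0 ∧ tyB y0 y1 y6 = tt z 1 ∧ tyB y1 y2 y7 = tt z 2 ∧
      tyB y2 y3 y8 = tt z 3 ∧ tyB y3 y4 y9 = tt z 4 ∧ tyB y5 y10 y13 = tt z 5 ∧
      tyB y6 y11 y14 = tt z 6 ∧ tyB y7 y10 y12 = tt z 7 ∧ tyB y8 y11 y13 = tt z 8 ∧
      tyB y9 y12 y14 = tt z 9)) = true := by
  decide +kernel

lemma host_par_aux : ∀ y0 y4 y5 : Bool, even3 y0 y4 y5 = true → ∀ y1 y6, even3 y0 y1 y6 = true →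
    ∀ y2 y7, even3 y1 y2 y7 = true → ∀ y3 y8, even3 y2 y3 y8 = true →
    ∀ y9, even3 y3 y4 y9 = true → ∀ y10 y13, even3 y5 y10 y13 = true →
    ∀ y11, even3 y8 y11 y13 = true → ∀ y14, even3 y6 y11 y14 = true →
    ∀ y12, even3 y7 y10 y12 = true → even3 y9 y12 y14 = true →
    ∃ z : Fin 64, tyB y0 y4 y5 = tt z 0 ∧ tyB y0 y1 y6 = tt z 1 ∧ tyB y1 y2 y7 = tt z 2 ∧
      tyB y2 y3 y8 = tt z 3 ∧ tyB y3 y4 y9 = tt z 4 ∧ tyB y5 y10 y13 = tt z 5 ∧
      tyB y6 y11 y14 = tt z 6 ∧ tyB y7 y10 y12 = tt z 7 ∧ tyB y8 y11 y13 = tt z 8 ∧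
      tyB y9 y12 y14 = tt z 9 := by
  have h := host_par_aux0
  simp only [allB_iff, impB_iff, decide_eq_true_eq] at h
  intro y0 y4 y5 h1 y1 y6 h2 y2 y7 h3 y3 y8 h4 y9 h5 y10 y13 h6 y11 h7 y14 h8 y12 h9 h10
  exact h y0 y4 y5 h1 y1 y6 h2 y2 y7 h3 y3 y8 h4 y9 h5 y10 y13 h6 y11 h7 y14 h8 y12 h9 h10

lemma host_par (y : Fin 15 → Bool)
    (h : ∀ i, even3 (y (inc i 0)) (y (inc i 1)) (y (inc i 2)) = true) :
    ∃ z : Fin 64, ∀ i, tyB (y (inc i 0)) (y (inc i 1)) (y (inc i 2)) = tt z i := by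
  obtain ⟨z, h0, h1, h2, h3, h4, h5, h6, h7, h8, h9⟩ := host_par_aux (y 0) (y 4) (y 5) (h 0)
    (y 1) (y 6) (h 1) (y 2) (y 7) (h 2) (y 3) (y 8) (h 3) (y 9) (h 4) (y 10) (y 13) (h 5)
    (y 11) (h 8) (y 14) (h 6) (y 12) (h 7) (h 9)
  refine ⟨z, ?_⟩
  intro i
  fin_cases i
  · exact h0
  · exact h1
  · exact h2
  · exact h3
  · exact h4
  · exact h5
  · exact h6
  · exact h7
  · exact h8
  · exact h9

def pmTab (k : Fin 6) : ℕ := ![992, 3589, 6186, 12372, 17682, 24713] k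

def pm (k : Fin 6) (e : Fin 15) : Bool := Nat.testBit (pmTab k) e.val

lemma host_pm_aux0 : (allB fun y0 => allB fun y4 => allB fun y5 => impB (one3 y0 y4 y5) <|
    allB fun y1 => allB fun y6 => impB (one3 y0 y1 y6) <|
    allB fun y2 => allB fun y7 => impB (one3 y1 y2 y7) <|
    allB fun y3 => allB fun y8 => impB (one3 y2 y3 y8) <|
    allB fun y9 => impB (one3 y3 y4 y9) <|
    allB fun y10 => allB fun y13 => impB (one3 y5 y10 y13) <|
    allB fun y11 => impB (one3 y8 y11 y13) <|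
    allB fun y14 => impB (one3 y6 y11 y14) <|
    allB fun y12 => impB (one3 y7 y10 y12) <| impB (one3 y9 y12 y14) <|
    decide (∃ k : Fin 6, y0 = pm k 0 ∧ y1 = pm k 1 ∧ y2 = pm k 2 ∧ y3 = pm k 3 ∧ y4 = pm k 4 ∧
      y5 = pm k 5 ∧ y6 = pm k 6 ∧ y7 = pm k 7 ∧ y8 = pm k 8 ∧ y9 = pm k 9 ∧ y10 = pm k 10 ∧
      y11 = pm k 11 ∧ y12 = pm k 12 ∧ y13 = pm k 13 ∧ y14 = pm k 14)) = true := by
  decide +kernel

lemma host_pm_aux : ∀ y0 y4 y5 : Bool, one3 y0 y4 y5 = true → ∀ y1 y6, one3 y0 y1 y6 = true →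
    ∀ y2 y7, one3 y1 y2 y7 = true → ∀ y3 y8, one3 y2 y3 y8 = true →
    ∀ y9, one3 y3 y4 y9 = true → ∀ y10 y13, one3 y5 y10 y13 = true →
    ∀ y11, one3 y8 y11 y13 = true → ∀ y14, one3 y6 y11 y14 = true →
    ∀ y12, one3 y7 y10 y12 = true → one3 y9 y12 y14 = true →
    ∃ k : Fin 6, y0 = pm k 0 ∧ y1 = pm k 1 ∧ y2 = pm k 2 ∧ y3 = pm k 3 ∧ y4 = pm k 4 ∧
      y5 = pm k 5 ∧ y6 = pm k 6 ∧ y7 = pm k 7 ∧ y8 = pm k 8 ∧ y9 = pm k 9 ∧ y10 = pm k 10 ∧
      y11 = pm k 11 ∧ y12 = pm k 12 ∧ y13 = pm k 13 ∧ y14 = pm k 14 := by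
  have h := host_pm_aux0
  simp only [allB_iff, impB_iff, decide_eq_true_eq] at h
  intro y0 y4 y5 h1 y1 y6 h2 y2 y7 h3 y3 y8 h4 y9 h5 y10 y13 h6 y11 h7 y14 h8 y12 h9 h10
  exact h y0 y4 y5 h1 y1 y6 h2 y2 y7 h3 y3 y8 h4 y9 h5 y10 y13 h6 y11 h7 y14 h8 y12 h9 h10

lemma host_pm (y : Fin 15 → Bool)
    (h : ∀ i, one3 (y (inc i 0)) (y (inc i 1)) (y (inc i 2)) = true) :
    ∃ k : Fin 6, ∀ e, y e = pm k e := by
  obtain ⟨k, h0, h1, h2, h3, h4, h5, h6, h7, h8, h9, h10, h11, h12, h13, h14⟩ :=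
    host_pm_aux (y 0) (y 4) (y 5) (h 0)
    (y 1) (y 6) (h 1) (y 2) (y 7) (h 2) (y 3) (y 8) (h 3) (y 9) (h 4) (y 10) (y 13) (h 5)
    (y 11) (h 8) (y 14) (h 6) (y 12) (h 7) (h 9)
  refine ⟨k, ?_⟩
  intro e
  fin_cases e
  · exact h0
  · exact h1
  · exact h2
  · exact h3
  · exact h4
  · exact h5
  · exact h6
  · exact h7
  · exact h8
  · exact h9
  · exact h10
  · exact h11
  · exact h12
  · exact h13
  · exact h14

lemma pm_cover : ∀ k0 k1 k2 k3 : Fin 6, ∃ e : Fin 15, pm k0 e = false ∧ pm k1 e = false ∧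
    pm k2 e = false ∧ pm k3 e = false := by
  decide +kernel

/-- number of elements of a subset of a 4-set -/
def w (a : Fin 4 → Bool) : ℕ := (a 0).toNat + (a 1).toNat + (a 2).toNat + (a 3).toNat

def Y (a : Fin 4 → Bool) : Bool := decide (w a = 1)

/-- labels of weight one or two at a vertex with odd sums -/
structure Tri (a b c : Fin 4 → Bool) : Prop where
  par : ∀ i, xor3 (a i) (b i) (c i) = true
  wa : w a = 1 ∨ w a = 2
  wb : w b = 1 ∨ w b = 2
  wc : w c = 1 ∨ w c = 2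

lemma tri_aux : ∀ a0 b0 c0 : Bool, xor3 a0 b0 c0 = true → ∀ a1 b1 c1 : Bool,
    xor3 a1 b1 c1 = true → ∀ a2 b2 c2 : Bool, xor3 a2 b2 c2 = true → ∀ a3 b3 c3 : Bool,
    xor3 a3 b3 c3 = true →
    (a0.toNat + a1.toNat + a2.toNat + a3.toNat = 1 ∨
      a0.toNat + a1.toNat + a2.toNat + a3.toNat = 2) →
    (b0.toNat + b1.toNat + b2.toNat + b3.toNat = 1 ∨
      b0.toNat + b1.toNat + b2.toNat + b3.toNat = 2) →
    (c0.toNat + c1.toNat + c2.toNat + c3.toNat = 1 ∨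
      c0.toNat + c1.toNat + c2.toNat + c3.toNat = 2) →
    even3 (decide (a0.toNat + a1.toNat + a2.toNat + a3.toNat = 1))
      (decide (b0.toNat + b1.toNat + b2.toNat + b3.toNat = 1))
      (decide (c0.toNat + c1.toNat + c2.toNat + c3.toNat = 1)) = true ∧
    (tyB (decide (a0.toNat + a1.toNat + a2.toNat + a3.toNat = 1))
      (decide (b0.toNat + b1.toNat + b2.toNat + b3.toNat = 1))
      (decide (c0.toNat + c1.toNat + c2.toNat + c3.toNat = 1)) ≠ 3 →
      one3 a0 b0 c0 = true ∧ one3 a1 b1 c1 = true ∧ one3 a2 b2 c2 = true ∧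
        one3 a3 b3 c3 = true) := by
  decide +kernel

lemma Tri.even {a b c : Fin 4 → Bool} (h : Tri a b c) : even3 (Y a) (Y b) (Y c) = true :=
  (tri_aux _ _ _ (h.par 0) _ _ _ (h.par 1) _ _ _ (h.par 2) _ _ _ (h.par 3) h.wa h.wb h.wc).1

lemma Tri.one {a b c : Fin 4 → Bool} (h : Tri a b c) (ht : tyB (Y a) (Y b) (Y c) ≠ 3) (i : Fin 4) :
    one3 (a i) (b i) (c i) = true := by
  obtain ⟨h0, h1, h2, h3⟩ :=
    (tri_aux _ _ _ (h.par 0) _ _ _ (h.par 1) _ _ _ (h.par 2) _ _ _ (h.par 3) h.wa h.wb h.wc).2 ht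
  fin_cases i
  · exact h0
  · exact h1
  · exact h2
  · exact h3

/-- the check of a table of lower bounds -/
def check (D : Fin 10 → Fin 4 → ℕ) : Prop :=
  ∀ z : Fin 64, (∀ i, tt z i ≠ 3) ∨ D 0 (tt z 0) ≤ D 1 (tt z 1) + D 2 (tt z 2) + D 3 (tt z 3) +
    D 4 (tt z 4) + D 5 (tt z 5) + D 6 (tt z 6) + D 7 (tt z 7) + D 8 (tt z 8) + D 9 (tt z 9)

instance (D : Fin 10 → Fin 4 → ℕ) : Decidable (check D) := by unfold check; infer_instance

/-- Labellings of the Petersen graph. -/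
theorem host (X : Fin 15 → Fin 4 → Bool)
    (h : ∀ i, Tri (X (inc i 0)) (X (inc i 1)) (X (inc i 2))) (D : Fin 10 → Fin 4 → ℕ)
    (hD : check D) (T : Fin 10 → Fin 4)
    (hT : ∀ i, T i = tyB (Y (X (inc i 0))) (Y (X (inc i 1))) (Y (X (inc i 2)))) :
    D 0 (T 0) ≤ D 1 (T 1) + D 2 (T 2) + D 3 (T 3) + D 4 (T 4) + D 5 (T 5) + D 6 (T 6) +
      D 7 (T 7) + D 8 (T 8) + D 9 (T 9) := by
  obtain ⟨z, hz⟩ := host_par (fun e => Y (X e)) (fun i => (h i).even)
  rcases hD z with hz2 | hz2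
  · exfalso
    have h1 : ∀ j : Fin 4, ∃ k : Fin 6, ∀ e, X e j = pm k e := by
      intro j
      apply host_pm (fun e => X e j)
      intro i
      exact (h i).one (by rw [hz i]; exact hz2 i) j
    obtain ⟨k0, g0⟩ := h1 0
    obtain ⟨k1, g1⟩ := h1 1
    obtain ⟨k2, g2⟩ := h1 2
    obtain ⟨k3, g3⟩ := h1 3
    obtain ⟨e, e0, e1, e2, e3⟩ := pm_cover k0 k1 k2 k3
    have hwe : w (X e) = 0 := by
      unfold w
      rw [g0, g1, g2, g3, e0, e1, e2, e3]; rfl
    have : ∀ e : Fin 15, ∃ (i : Fin 10) (k : Fin 3), inc i k = e := by decide +kernel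
    obtain ⟨i, k, hik⟩ := this e
    have hw := h i
    fin_cases k
    · have := hw.wa; simp only [Fin.zero_eta] at hik; rw [hik, hwe] at this; omega
    · have := hw.wb; simp only [Fin.mk_one] at hik; rw [hik, hwe] at this; omega
    · have := hw.wc; simp only [Fin.reduceFinMk] at hik; rw [hik, hwe] at this; omega
  · have e : ∀ i, T i = tt z i := fun i => (hT i).trans (hz i)
    simp only [e]
    exact hz2

end Q108.SCT
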